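import Pool.Agent.Lib.helper28.DgaC

set_option autoImplicit false

namespace Pool.Agent.Results.MP_ecafc5_an.Diverge

theorem result (t : ℝ) (_ht0 : 0 < t) (ht1 : t ≤ 1) :
    ∃ (X : Type) (_ : NormedAddCommGroup X) (_ : NormedSpace ℝ X) (_ : CompleteSpace X) (γ : ℝ),
      (∀ x y : X, ‖x‖ = 1 → ‖y‖ = 1 → ∀ u : ℝ, 0 < u →
        (‖x + u • y‖ + ‖x - u • y‖) / 2 - 1 ≤ γ * u ^ 2) ∧
      ∃ (D : Set X) (f : ℕ → X) (F : ℕ → X →L[ℝ] ℝ) (φ : ℕ → X) (a : ℕ → ℝ),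
        (∀ g ∈ D, ‖g‖ = 1) ∧ (∀ g ∈ D, -g ∈ D) ∧
        Dense ((Submodule.span ℝ D : Submodule ℝ X) : Set X) ∧
        (∀ m, ‖F m‖ = 1 ∧ F m (f m) = ‖f m‖) ∧
        (∀ m, φ (m + 1) ∈ D ∧ t * (⨆ g : D, F m g) ≤ F m (φ (m + 1))) ∧
        (∀ m, ∀ b : ℝ, ‖f m - a (m + 1) • φ (m + 1)‖ ≤ ‖f m - b • φ (m + 1)‖) ∧
        (∀ m, f (m + 1) = f m - a (m + 1) • φ (m + 1)) ∧
        ∃ c : ℝ, 0 < c ∧ ∀ m, c ≤ ‖f m‖ := by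
  obtain ⟨X, i1, i2, i3, hρ, D, f, F, φ, a, h1, h2, h3, h4, h5, h6, h7, h8⟩ := H28Dga.exists_run
  refine ⟨X, i1, i2, i3, 61, fun x y hx hy u _ => hρ x y hx hy u, D, f, F, fun m => φ (m - 1),
    fun m => a (m - 1), h1, h2, h3, h4, fun m => ⟨(h5 m).1, ?_⟩, h6, h7, 98 / 100, by norm_num, h8⟩
  have hne : Nonempty D := ⟨⟨φ m, (h5 m).1⟩⟩
  have e1 : (⨆ g : D, F m g) ≤ F m (φ m) := ciSup_le (fun g => (h5 m).2 g g.2)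
  have e2 := (h5 m).2 _ (h2 _ (h5 m).1)
  rw [map_neg] at e2
  have e3 := mul_le_mul_of_nonneg_left e1 _ht0.le
  simp only [Nat.add_sub_cancel]
  nlinarith

end Pool.Agent.Results.MP_ecafc5_an.Diverge
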